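import Pool.Agent.Run7.h985.TC.Stm3
import Pool.Agent.Run7.h354.TC.CR1

/-!
# CRU: Cramer's rule in a class of objects (adaptation of CR1 of helper354)
-/

set_option autoImplicit false
set_option linter.unusedSectionVars false
set_option linter.unusedSimpArgs false
set_option backward.isDefEq.respectTransparency false
set_option backward.defeqAttrib.useBackward true

open CategoryTheory Limits MonoidalCategory Pretriangulated Triangulated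

namespace Run7.h617.TC

open Pool.Agent.Y116.MT Pool.Agent.V1178.MT Run7.h822.MT Run7.h985.TC Run7.h354.TC

universe v u w

theorem t_CRU : S_CRU.{v, u, w} := by
  intro C _ _ _ _ _ _ _ _ _ _ _ E _ R 𝓤 hF M N hM hN f hf
  have hpw : ∀ Z : C, 𝓤 Z → ∀ n : ℕ, 𝓤 (pw (𝟙_ C) Z n) := by
    intro Z hZ n
    induction n with
    | zero => exact hF.unit
    | succ n ih => exact hF.tensor ih hZ
  -- the alternating powers vanish
  have halt : ∀ n : ℕ, Module.finrank E (R.H.obj N) < n → alt (𝟙_ C) N n = 0 := by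
    intro n hn
    apply hF.zero (hpw N hN n) (hpw N hN n)
    have h1 := kap_iso' (fun n => pw_deg (hF.deg hN) n) n
    rw [← cancel_epi (kap R.H (𝟙_ C) N n), ← alt_lax, alt_vec_zero _ _ _ hn, zero_comp, comp_zero]
  have hex : ∃ n : ℕ, pwZ f n ≫ alt (𝟙_ C) N n = 0 :=
    ⟨Module.finrank E (R.H.obj N) + 1, by rw [halt _ (Nat.lt_succ_self _), comp_zero]⟩
  classical
  obtain ⟨k, hk0, hkmin⟩ : ∃ k : ℕ, pwZ f k ≫ alt (𝟙_ C) N k = 0 ∧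
      ∀ l < k, pwZ f l ≫ alt (𝟙_ C) N l ≠ 0 :=
    ⟨Nat.find hex, Nat.find_spec hex, fun l hl => Nat.find_min hex hl⟩
  rcases k with _ | r
  · exfalso
    have h1 : pwZ f 0 ≫ alt (𝟙_ C) N 0 = 𝟙 (𝟙_ C) := by
      simp [pwZ, alt]
    rw [h1] at hk0
    exact not_isZero_unit R ((IsZero.iff_id_eq_zero _).2 hk0)
  rcases r with _ | m
  · exfalso
    apply hf
    have h1 : pwZ f (0 + 1) ≫ alt (𝟙_ C) N (0 + 1) = (𝟙_ C) ◁ f := by
      simp [pwZ, alt, mv]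
    rw [h1] at hk0
    have h2 : f = (λ_ M).inv ≫ ((𝟙_ C) ◁ f) ≫ (λ_ N).hom := by simp
    rw [h2, hk0, zero_comp, comp_zero]
  have hg := hkmin (m + 1) (Nat.lt_succ_self _)
  set U : C := pw (𝟙_ C) M (m + 1) with hU
  set W : C := pw (𝟙_ C) N (m + 1) with hW
  let g : U ⟶ W := pwZ f (m + 1) ≫ alt (𝟙_ C) N (m + 1)
  let A : Fin (m + 1) → (U ⊗ N ⟶ W ⊗ M) := fun j =>
    (mv (𝟙_ C) M m j ▷ N) ≫ (exch (pw (𝟙_ C) M m) M N).hom ≫
      (((pwZ f m ▷ N) ≫ alt (𝟙_ C) N (m + 1)) ▷ M)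
  refine ⟨U, W, g, -∑ j : Fin (m + 1), ((-1 : ℤ) ^ (m + 1 + j.val)) • A j, hpw M hM _,
    hpw N hN _, hg, ?_⟩
  have hterm : ∀ j : Fin (m + 1), (pwZ f (m + 1) ⊗ₘ f) ≫ (mv (𝟙_ C) N m j ▷ N) ≫
      (exch (pw (𝟙_ C) N m) N N).hom ≫ (alt (𝟙_ C) N (m + 1) ▷ N) =
      (U ◁ f) ≫ A j ≫ (W ◁ f) := by
    intro j
    have e1 : (pwZ f (m + 1) ⊗ₘ f) = (U ◁ f) ≫ (pwZ f (m + 1) ▷ N) := by
      rw [MonoidalCategory.tensorHom_def']
    have e2 : (pwZ f (m + 1) ▷ N) ≫ (mv (𝟙_ C) N m j ▷ N) =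
        (mv (𝟙_ C) M m j ▷ N) ≫ (pwZ f (m + 1) ▷ N) := by
      rw [← comp_whiskerRight, pwZ_mv, comp_whiskerRight]
    have e3 : (pwZ f (m + 1) ▷ N) ≫ (exch (pw (𝟙_ C) N m) N N).hom =
        (exch (pw (𝟙_ C) M m) M N).hom ≫ ((pwZ f m ▷ N) ▷ M) ≫ (W ◁ f) := by
      have h1 := exch_nat (pwZ f m) f (𝟙 N)
      rw [MonoidalCategory.tensorHom_id, MonoidalCategory.tensorHom_id,
        MonoidalCategory.tensorHom_def (pwZ f m ▷ N) f] at h1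
      exact h1
    have e4 : (W ◁ f) ≫ (alt (𝟙_ C) N (m + 1) ▷ N) = (alt (𝟙_ C) N (m + 1) ▷ M) ≫ (W ◁ f) :=
      whisker_exchange _ _
    calc (pwZ f (m + 1) ⊗ₘ f) ≫ (mv (𝟙_ C) N m j ▷ N) ≫
        (exch (pw (𝟙_ C) N m) N N).hom ≫ (alt (𝟙_ C) N (m + 1) ▷ N)
        = (U ◁ f) ≫ ((pwZ f (m + 1) ▷ N) ≫ (mv (𝟙_ C) N m j ▷ N)) ≫
          (exch (pw (𝟙_ C) N m) N N).hom ≫ (alt (𝟙_ C) N (m + 1) ▷ N) := by
          rw [e1]; simp only [Category.assoc]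
      _ = (U ◁ f) ≫ (mv (𝟙_ C) M m j ▷ N) ≫ ((pwZ f (m + 1) ▷ N) ≫
          (exch (pw (𝟙_ C) N m) N N).hom) ≫ (alt (𝟙_ C) N (m + 1) ▷ N) := by
          rw [e2]; simp only [Category.assoc]
      _ = (U ◁ f) ≫ (mv (𝟙_ C) M m j ▷ N) ≫ (exch (pw (𝟙_ C) M m) M N).hom ≫
          ((pwZ f m ▷ N) ▷ M) ≫ ((W ◁ f) ≫ (alt (𝟙_ C) N (m + 1) ▷ N)) := by
          rw [e3]; simp only [Category.assoc]
      _ = (U ◁ f) ≫ A j ≫ (W ◁ f) := by
          rw [e4]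
          simp only [A, comp_whiskerRight, Category.assoc]
  have hlast : (pwZ f (m + 1) ⊗ₘ f) ≫ (alt (𝟙_ C) N (m + 1) ▷ N) = (g ▷ M) ≫ (W ◁ f) := by
    rw [MonoidalCategory.tensorHom_def, Category.assoc, whisker_exchange, comp_whiskerRight,
      Category.assoc]
  have h0 : (∑ j : Fin (m + 1), ((-1 : ℤ) ^ (m + 1 + j.val)) • ((U ◁ f) ≫ A j ≫ (W ◁ f))) +
      (g ▷ M) ≫ (W ◁ f) = 0 := by
    have h1 : pwZ f (m + 1 + 1) ≫ alt (𝟙_ C) N (m + 1 + 1) = 0 := hk0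
    have h2 : alt (𝟙_ C) N (m + 1 + 1) = ∑ i : Fin (m + 1 + 1),
        ((-1 : ℤ) ^ (m + 1 + i.val)) • (mv (𝟙_ C) N (m + 1) i ≫ (alt (𝟙_ C) N (m + 1) ▷ N)) := rfl
    rw [h2, Fin.sum_univ_castSucc, Preadditive.comp_add, Preadditive.comp_sum, mv_last,
      Category.id_comp, Fin.val_last, Even.neg_one_pow ⟨m + 1, rfl⟩, one_zsmul] at h1
    rw [← hlast]
    refine Eq.trans ?_ h1
    congr 1
    refine Finset.sum_congr rfl fun j _ => ?_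
    rw [← hterm j, Preadditive.comp_zsmul, mv_castSucc, Fin.val_castSucc, Category.assoc]
    rfl
  rw [Preadditive.neg_comp, Preadditive.comp_neg, neg_eq_iff_add_eq_zero, Preadditive.sum_comp,
    Preadditive.comp_sum]
  refine Eq.trans ?_ h0
  congr 1
  refine Finset.sum_congr rfl fun j _ => ?_
  rw [Preadditive.zsmul_comp, Preadditive.comp_zsmul]

end Run7.h617.TC
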