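import Pool.Agent.Run7.h985.TC.Stm3
import Pool.Agent.Run7.h192.TC.NIL

/-!
# NILC: nilpotence of the class of an extension of the unit, with conservativity
(adaptation of NIL of helper192)
-/

set_option autoImplicit false
set_option linter.unusedSectionVars false
set_option linter.unusedSimpArgs false
set_option backward.isDefEq.respectTransparency false
set_option backward.defeqAttrib.useBackward true

open CategoryTheory Limits MonoidalCategory Pretriangulated Triangulated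

namespace Run7.h617.TC

open Pool.Agent.Y116.MT Pool.Agent.V1178.MT Run7.h822.MT Run7.h985.TC Run7.h192.TC

universe v u w

section

variable {C : Type u} [Category.{v} C] [Preadditive C] [HasZeroObject C] [HasShift C ℤ]
  [∀ n : ℤ, (shiftFunctor C n).Additive] [Pretriangulated C] [MonoidalCategory C]
  [SymmetricCategory C] [TensorTriangulated C] [MonoidalPreadditive C]
  {E : Type w} [Field E] (R : Realisation C E)

/-- The realisation of `f` vanishes in all degrees. -/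
def Nul {X Y : C} (f : X ⟶ Y) : Prop := ∀ i : ℤ, R.H.map (f⟦i⟧') = 0

variable {R}

lemma Nul.pre {X Y Z : C} {f : X ⟶ Y} (h : Nul R f) (a : Z ⟶ X) : Nul R (a ≫ f) := by
  intro i
  rw [Functor.map_comp, Functor.map_comp, h i, comp_zero]

lemma Nul.post {X Y Z : C} {f : X ⟶ Y} (h : Nul R f) (b : Y ⟶ Z) : Nul R (f ≫ b) := by
  intro i
  rw [Functor.map_comp, Functor.map_comp, h i, zero_comp]

lemma nul_of_shift {X Y : C} {f : X ⟶ Y} {m : ℤ} (h : Nul R (f⟦m⟧')) : Nul R f := by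
  intro i
  have e := (shiftFunctorAdd' C m (i - m) i (by ring)).hom.naturality f
  have e2 : f⟦i⟧' = (shiftFunctorAdd' C m (i - m) i (by ring)).hom.app X ≫
      (f⟦m⟧')⟦i - m⟧' ≫ (shiftFunctorAdd' C m (i - m) i (by ring)).inv.app Y := by
    rw [← Category.assoc]
    have e3 : (shiftFunctorAdd' C m (i - m) i (by ring)).hom.app X ≫ (f⟦m⟧')⟦i - m⟧' =
        f⟦i⟧' ≫ (shiftFunctorAdd' C m (i - m) i (by ring)).hom.app Y := e.symm
    rw [e3, Category.assoc, Iso.hom_inv_id_app, Category.comp_id]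
  rw [e2, Functor.map_comp, Functor.map_comp, h (i - m), zero_comp, comp_zero]

lemma nul_of_unit {X Y : C} {f : X ⟶ Y} (h : Nul R (f ▷ (𝟙_ C))) : Nul R f := by
  have h1 : f = (ρ_ X).inv ≫ f ▷ (𝟙_ C) ≫ (ρ_ Y).hom := by simp
  rw [h1]
  exact (h.post _).pre _

lemma nul_of_tensor {X Y : C} {f : X ⟶ Y} {A B : C} (h : Nul R (f ▷ (A ⊗ B))) :
    Nul R ((f ▷ A) ▷ B) := by
  have h1 : (f ▷ A) ▷ B = (α_ X A B).hom ≫ f ▷ (A ⊗ B) ≫ (α_ Y A B).inv := by
    rw [whiskerRight_tensor]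
    simp
  rw [h1]
  exact (h.post _).pre _

lemma nul_of_whisker_shift {X Y : C} {f : X ⟶ Y} {m : ℤ} (h : Nul R (f ▷ ((𝟙_ C)⟦m⟧))) :
    Nul R f := by
  have h1 := rShift_natural_left f (𝟙_ C) m
  apply nul_of_unit
  apply nul_of_shift (m := m)
  have h2 : (f ▷ (𝟙_ C))⟦m⟧' = (rShift X (𝟙_ C) m).inv ≫ (f ▷ ((𝟙_ C)⟦m⟧)) ≫
      (rShift Y (𝟙_ C) m).hom := by
    rw [h1, Iso.inv_hom_id_assoc]
  rw [h2]
  exact (h.post _).pre _

lemma nul_of_whisker_pw {X Y : C} {f : X ⟶ Y} {m : ℤ} (n : ℕ)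
    (h : Nul R (f ▷ (pw (𝟙_ C) ((𝟙_ C)⟦m⟧) n))) : Nul R f := by
  induction n with
  | zero => exact nul_of_unit h
  | succ n ih => exact ih (nul_of_whisker_shift (nul_of_tensor h))

/-- In degree zero it is enough to look at the degree zero. -/
lemma nul_of_deg {X Y : C} {f : X ⟶ Y} (hX : R.Deg X 0) (h : R.H.map f = 0) : Nul R f := by
  intro i
  by_cases hi : i = 0
  · subst hi
    have e : f⟦(0 : ℤ)⟧' = (shiftFunctorZero C ℤ).hom.app X ≫ f ≫
        (shiftFunctorZero C ℤ).inv.app Y := by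
      have e3 : f⟦(0 : ℤ)⟧' ≫ (shiftFunctorZero C ℤ).hom.app Y =
          (shiftFunctorZero C ℤ).hom.app X ≫ f := (shiftFunctorZero C ℤ).hom.naturality f
      rw [← Category.assoc, ← e3, Category.assoc, Iso.hom_inv_id_app, Category.comp_id]
    rw [e, Functor.map_comp, Functor.map_comp, h, zero_comp, comp_zero]
  · exact (hX i hi).eq_of_src _ _

lemma isIso_zsmul_mod [CharZero E] (M : ModuleCat.{w} E) (k : ℤ) (hk : k ≠ 0) :
    IsIso (k • 𝟙 M) := by
  have hk' : (k : E) ≠ 0 := by exact_mod_cast hk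
  have h1 : ∀ x : M, (k • 𝟙 M).hom x = (k : E) • x := by
    intro x
    rw [ModuleCat.hom_zsmul, LinearMap.smul_apply]
    exact (Int.cast_smul_eq_zsmul E k x).symm
  rw [ConcreteCategory.isIso_iff_bijective]
  constructor
  · intro x y hxy
    have h2 : (k : E) • x = (k : E) • y := by
      rw [← h1, ← h1]
      exact hxy
    exact smul_right_injective M hk' h2
  · intro y
    refine ⟨(k : E)⁻¹ • y, ?_⟩
    have h2 := h1 ((k : E)⁻¹ • y)
    rw [smul_smul, mul_inv_cancel₀ hk', one_smul] at h2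
    exact h2

/-- The realisation of the antisymmetrizer of an object in degree zero. -/
lemma nul_asym {X Z : C} (hX : R.Deg X 0) (hZ : R.Deg Z 0) (n : ℕ)
    (hn : Module.finrank E (R.H.obj Z) < n) : Nul R (asym (-1) X Z n) := by
  rw [asym_neg_one]
  have h0 : ∀ n, R.Deg (pw X Z n) 0 := by
    intro n
    induction n with
    | zero => exact hX
    | succ n ih => exact ih.tensor hZ
  refine nul_of_deg (h0 n) ?_
  have h1 := kap_iso' h0 n
  rw [← cancel_epi (kap R.H X Z n), ← alt_lax, alt_vec_zero _ _ _ hn, zero_comp, comp_zero]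

end

/-- Piece NILC. -/
theorem t_NILC : S_NILC.{v, u, w} := by
  intro C _ _ _ _ _ _ _ _ _ _ _ E _ _ R hc P q hP
  have hL : R.Deg (P ⊗ (𝟙_ C)⟦(-1 : ℤ)⟧) 0 := by
    have h1 : R.Deg ((𝟙_ C)⟦(-1 : ℤ)⟧) 1 := (deg_unit (R := R)).shift (-1) 1 (by norm_num)
    have h2 := hP.tensor h1
    simpa using h2
  have hU : R.Deg (𝟙_ C ⊗ 𝟙_ C) 0 := by
    have h2 := (deg_unit (R := R)).tensor (deg_unit (R := R))
    simpa using h2
  obtain ⟨n, hn⟩ : ∃ n : ℕ, Module.finrank E (R.H.obj (P ⊗ (𝟙_ C)⟦(-1 : ℤ)⟧)) < n :=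
    ⟨_, Nat.lt_succ_self _⟩
  have h0 := nul_asym hU hL n hn
  have h1 := asym_mrg (sign_neg_shift (C := C)) (by norm_num) (-1) (𝟙_ C) P (𝟙_ C) n
  have h2 : Nul R (asym ((-1) * (-1)) (𝟙_ C) P n ▷ pw (𝟙_ C) ((𝟙_ C)⟦(-1 : ℤ)⟧) n) := by
    have h3 : asym ((-1) * (-1)) (𝟙_ C) P n ▷ pw (𝟙_ C) ((𝟙_ C)⟦(-1 : ℤ)⟧) n =
        (mrg (𝟙_ C) P (𝟙_ C) ((𝟙_ C)⟦(-1 : ℤ)⟧) n ≫
          asym (-1) (𝟙_ C ⊗ 𝟙_ C) (P ⊗ (𝟙_ C)⟦(-1 : ℤ)⟧) n) ≫
          inv (mrg (𝟙_ C) P (𝟙_ C) ((𝟙_ C)⟦(-1 : ℤ)⟧) n) := by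
      rw [← h1, Category.assoc, IsIso.hom_inv_id, Category.comp_id]
    rw [h3]
    exact (h0.pre _).post _
  have h3 : Nul R (asym 1 (𝟙_ C) P n) := by
    have h4 := nul_of_whisker_pw n h2
    simpa using h4
  refine ⟨n, ?_⟩
  have h5 := qp_asym q n
  have hk : (n.factorial : ℤ) ≠ 0 := by exact_mod_cast n.factorial_ne_zero
  have h6 : IsIso (asym 1 (𝟙_ C) P n - (n.factorial : ℤ) • 𝟙 (pw (𝟙_ C) P n)) := by
    apply isIso_of_H hc
    intro i
    rw [Functor.map_sub, Functor.map_sub, h3 i, zero_sub, Functor.map_zsmul, Functor.map_zsmul,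
      CategoryTheory.Functor.map_id, CategoryTheory.Functor.map_id, ← neg_zsmul]
    exact isIso_zsmul_mod _ _ (neg_ne_zero.2 hk)
  rw [← cancel_mono (asym 1 (𝟙_ C) P n - (n.factorial : ℤ) • 𝟙 (pw (𝟙_ C) P n)), zero_comp,
    Preadditive.comp_sub, h5, Preadditive.comp_zsmul, Category.comp_id, sub_self]

end Run7.h617.TC
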